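import Mathlib

/-!
# Sums of squares of real polynomials that are homogeneous
-/

set_option autoImplicit false

open MvPolynomial

namespace Pool.Agent.W5h88

/-- substitution `X_j ↦ x_j T` -/
noncomputable def lineMap {σ : Type*} (x : σ → ℝ) : MvPolynomial σ ℝ →ₐ[ℝ] Polynomial ℝ :=
  aeval fun j => Polynomial.C (x j) * Polynomial.X

theorem lineMap_hom {σ : Type*} (x : σ → ℝ) {p : MvPolynomial σ ℝ} {d : ℕ}
    (hp : p.IsHomogeneous d) :
    lineMap x p = Polynomial.C (eval x p) * Polynomial.X ^ d := by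
  classical
  rw [p.as_sum, map_sum, map_sum, map_sum, Finset.sum_mul]
  refine Finset.sum_congr rfl fun e he => ?_
  have h1 : e.degree = d := by
    by_contra hne
    exact MvPolynomial.mem_support_iff.mp he (hp.coeff_eq_zero hne)
  rw [lineMap, aeval_monomial, eval_monomial, Finsupp.prod, Finsupp.prod]
  have h2 : ∏ j ∈ e.support, (Polynomial.C (x j) * Polynomial.X) ^ e j =
      Polynomial.C (∏ j ∈ e.support, x j ^ e j) * Polynomial.X ^ d := by
    rw [map_prod, ← h1, Finsupp.degree_apply, ← Finset.prod_pow_eq_pow_sum, ← Finset.prod_mul_distrib]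
    refine Finset.prod_congr rfl fun j _ => ?_
    rw [mul_pow, map_pow]
  rw [h2, Polynomial.C_mul]
  simp only [Polynomial.algebraMap_eq]
  ring

theorem lineMap_coeff {σ : Type*} (x : σ → ℝ) (p : MvPolynomial σ ℝ) (d : ℕ) :
    (lineMap x p).coeff d = eval x (homogeneousComponent d p) := by
  conv_lhs => rw [← sum_homogeneousComponent p]
  rw [map_sum, Polynomial.finsetSum_coeff]
  have h1 : ∀ i, (lineMap x (homogeneousComponent i p)).coeff d =
      if d = i then eval x (homogeneousComponent i p) else 0 := by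
    intro i
    rw [lineMap_hom x (homogeneousComponent_isHomogeneous i p), Polynomial.coeff_C_mul_X_pow]
  simp only [h1]
  rw [Finset.sum_ite_eq]
  split_ifs with h
  · rfl
  · rw [homogeneousComponent_eq_zero, map_zero]
    rw [Finset.mem_range] at h
    omega

/-- one variable, from above -/
theorem sos_natDegree {ι : Type*} (s : Finset ι) (H : ι → Polynomial ℝ) (m : ℕ)
    (h : (∑ i ∈ s, H i ^ 2).natDegree ≤ 2 * m) : ∀ i ∈ s, (H i).natDegree ≤ m := by
  have key : ∀ D, m ≤ D → (∀ i ∈ s, (H i).natDegree ≤ D + 1) → ∀ i ∈ s, (H i).natDegree ≤ D := by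
    intro D hD hall i hi
    have h1 : (∑ i ∈ s, H i ^ 2).coeff ((D + 1) + (D + 1)) = 0 :=
      Polynomial.coeff_eq_zero_of_natDegree_lt (by omega)
    rw [Polynomial.finsetSum_coeff] at h1
    have h2 : ∀ i ∈ s, (H i ^ 2).coeff ((D + 1) + (D + 1)) = (H i).coeff (D + 1) ^ 2 := by
      intro i hi
      rw [pow_two, Polynomial.coeff_mul_add_eq_of_natDegree_le (hall i hi) (hall i hi), pow_two]
    rw [Finset.sum_congr rfl h2,
      Finset.sum_eq_zero_iff_of_nonneg (fun i _ => sq_nonneg _)] at h1
    have h3 := pow_eq_zero_iff (two_ne_zero) |>.mp (h1 i hi)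
    rw [Polynomial.natDegree_le_iff_coeff_eq_zero]
    intro N hN
    rcases Nat.lt_or_ge (D + 1) N with h4 | h4
    · exact Polynomial.coeff_eq_zero_of_natDegree_lt (lt_of_le_of_lt (hall i hi) h4)
    · have : N = D + 1 := by omega
      rw [this, h3]
  have key2 : ∀ e, (∀ i ∈ s, (H i).natDegree ≤ m + e) → ∀ i ∈ s, (H i).natDegree ≤ m := by
    intro e
    induction e with
    | zero => intro hall; exact hall
    | succ e ih =>
      intro hall
      exact ih (key (m + e) (Nat.le_add_right _ _) hall)
  refine key2 (s.sup fun i => (H i).natDegree) fun i hi => ?_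
  exact le_trans (Finset.le_sup (f := fun i => (H i).natDegree) hi) (Nat.le_add_left _ _)

/-- one variable, from below -/
theorem sos_dvd {ι : Type*} (s : Finset ι) (H : ι → Polynomial ℝ) (m : ℕ) (c : ℝ)
    (h : ∑ i ∈ s, H i ^ 2 = Polynomial.C c * Polynomial.X ^ (2 * m)) :
    ∀ i ∈ s, Polynomial.X ^ m ∣ H i := by
  induction m generalizing H with
  | zero => intro i _; simp
  | succ m ih =>
    have h0 : ∀ i ∈ s, Polynomial.X ∣ H i := by
      have h1 := congrArg (Polynomial.eval 0) h
      rw [Polynomial.eval_finsetSum] at h1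
      simp only [Polynomial.eval_pow, Polynomial.eval_mul, Polynomial.eval_C,
        Polynomial.eval_X] at h1
      rw [zero_pow (by omega), mul_zero,
        Finset.sum_eq_zero_iff_of_nonneg (fun i _ => sq_nonneg _)] at h1
      intro i hi
      rw [Polynomial.X_dvd_iff, Polynomial.coeff_zero_eq_eval_zero]
      exact pow_eq_zero_iff (two_ne_zero) |>.mp (h1 i hi)
    classical
    choose! K hK using h0
    have h2 : ∑ i ∈ s, K i ^ 2 = Polynomial.C c * Polynomial.X ^ (2 * m) := by
      have h3 : (Polynomial.X : Polynomial ℝ) ^ 2 * ∑ i ∈ s, K i ^ 2 =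
          Polynomial.X ^ 2 * (Polynomial.C c * Polynomial.X ^ (2 * m)) := by
        rw [Finset.mul_sum]
        calc ∑ i ∈ s, (Polynomial.X : Polynomial ℝ) ^ 2 * K i ^ 2 = ∑ i ∈ s, H i ^ 2 :=
              Finset.sum_congr rfl fun i hi => by rw [← mul_pow, ← hK i hi]
          _ = _ := by rw [h]; ring
      exact mul_left_cancel₀ (pow_ne_zero 2 Polynomial.X_ne_zero) h3
    intro i hi
    obtain ⟨L, hL⟩ := ih K h2 i hi
    exact ⟨L, by rw [hK i hi, hL]; ring⟩

/-- If a homogeneous real polynomial of degree `2 m` is a sum of squares, then the squares are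
squares of homogeneous polynomials of degree `m`. -/
theorem sos_hom {σ ι : Type*} (s : Finset ι) (h : ι → MvPolynomial σ ℝ) (m : ℕ)
    (hF : (∑ i ∈ s, h i ^ 2).IsHomogeneous (2 * m)) : ∀ i ∈ s, (h i).IsHomogeneous m := by
  intro i hi
  have h0 : ∀ d, d ≠ m → homogeneousComponent d (h i) = 0 := by
    intro d hd
    refine MvPolynomial.funext fun x => ?_
    rw [← lineMap_coeff, map_zero]
    have h1 : ∑ i ∈ s, lineMap x (h i) ^ 2 =
        Polynomial.C (eval x (∑ i ∈ s, h i ^ 2)) * Polynomial.X ^ (2 * m) := by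
      rw [← lineMap_hom x hF, map_sum]
      simp only [map_pow]
    rcases Nat.lt_or_ge m d with h2 | h2
    · have h3 := sos_natDegree s (fun i => lineMap x (h i)) m (by
        rw [h1]
        exact Polynomial.natDegree_C_mul_X_pow_le _ _) i hi
      exact Polynomial.coeff_eq_zero_of_natDegree_lt (lt_of_le_of_lt h3 h2)
    · have h3 := sos_dvd s (fun i => lineMap x (h i)) m _ h1 i hi
      rw [Polynomial.X_pow_dvd_iff] at h3
      exact h3 d (by omega)
  have h1 := sum_homogeneousComponent (h i)
  rw [← h1]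
  refine IsHomogeneous.sum _ _ _ fun d _ => ?_
  by_cases hd : d = m
  · rw [hd]
    exact homogeneousComponent_isHomogeneous m (h i)
  · rw [h0 d hd]
    exact isHomogeneous_zero _ _ _

end Pool.Agent.W5h88
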