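import Mathlib
import Pool.Agent.R151.HQ
import Pool.Agent.W5h88.HomSos

/-!
# Forms of Motzkin type are not sums of squares
-/

set_option autoImplicit false

open MvPolynomial

namespace Pool.Agent.W5h88

theorem cubic_coeffs {ι : Type*} [Fintype ι] (α β γ δ : ι → ℝ) (E : Fin 7 → ℝ)
    (h : ∀ z : ℝ, ∑ i, (α i + β i * z + γ i * z ^ 2 + δ i * z ^ 3) ^ 2 =
      E 0 + E 1 * z + E 2 * z ^ 2 + E 3 * z ^ 3 + E 4 * z ^ 4 + E 5 * z ^ 5 + E 6 * z ^ 6) :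
    ∑ i, α i ^ 2 = E 0 ∧ ∑ i, (β i ^ 2 + 2 * α i * γ i) = E 2 ∧
      ∑ i, (γ i ^ 2 + 2 * β i * δ i) = E 4 := by
  have h1 : ∀ z : ℝ, ∑ i, (α i + β i * z + γ i * z ^ 2 + δ i * z ^ 3) ^ 2 =
      ∑ i, α i ^ 2 + (∑ i, 2 * α i * β i) * z + (∑ i, (β i ^ 2 + 2 * α i * γ i)) * z ^ 2 +
      (∑ i, (2 * α i * δ i + 2 * β i * γ i)) * z ^ 3 +
      (∑ i, (γ i ^ 2 + 2 * β i * δ i)) * z ^ 4 + (∑ i, 2 * γ i * δ i) * z ^ 5 +
      (∑ i, δ i ^ 2) * z ^ 6 := by
    intro z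
    simp only [Finset.sum_mul]
    rw [← Finset.sum_add_distrib, ← Finset.sum_add_distrib, ← Finset.sum_add_distrib,
      ← Finset.sum_add_distrib, ← Finset.sum_add_distrib, ← Finset.sum_add_distrib]
    refine Finset.sum_congr rfl fun i _ => ?_
    ring
  have h2 := fun z => (h1 z).symm.trans (h z)
  have e0 := h2 0
  have e1 := h2 1
  have e2 := h2 (-1)
  have e3 := h2 2
  have e4 := h2 (-2)
  have e5 := h2 3
  have e6 := h2 (-3)
  generalize ∑ i, α i ^ 2 = S0 at *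
  generalize ∑ i, 2 * α i * β i = S1 at *
  generalize ∑ i, (β i ^ 2 + 2 * α i * γ i) = S2 at *
  generalize ∑ i, (2 * α i * δ i + 2 * β i * γ i) = S3 at *
  generalize ∑ i, (γ i ^ 2 + 2 * β i * δ i) = S4 at *
  generalize ∑ i, 2 * γ i * δ i = S5 at *
  generalize ∑ i, δ i ^ 2 = S6 at *
  norm_num at e0 e1 e2 e3 e4 e5 e6
  refine ⟨e0, ?_, ?_⟩ <;> linarith

theorem all_zero {ι : Type*} [Fintype ι] (α : ι → ℝ) (h : ∑ i, α i ^ 2 = 0) : ∀ i, α i = 0 := by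
  rw [Finset.sum_eq_zero_iff_of_nonneg (fun i _ => sq_nonneg _)] at h
  intro i
  exact pow_eq_zero_iff two_ne_zero |>.mp (h i (Finset.mem_univ i))

theorem motzkin_not {ι : Type*} [Fintype ι] (A B C' D : ℝ) (hC : 0 < C')
    (Q : ι → MvPolynomial (Fin 3) ℝ)
    (h : ∀ x : Fin 3 → ℝ, A * (x 0 ^ 4 * x 1 ^ 2) + B * (x 0 ^ 2 * x 1 ^ 4) -
      C' * (x 0 ^ 2 * x 1 ^ 2 * x 2 ^ 2) + D * x 2 ^ 6 = ∑ i, eval x (Q i) ^ 2) : False := by
  classical
  have hX : ∀ i : Fin 3, (X i : MvPolynomial (Fin 3) ℝ).IsHomogeneous 1 :=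
    fun i => isHomogeneous_X ℝ i
  have hF : ∑ i, Q i ^ 2 = C A * (X 0 ^ 4 * X 1 ^ 2) + C B * (X 0 ^ 2 * X 1 ^ 4) -
      C C' * (X 0 ^ 2 * X 1 ^ 2 * X 2 ^ 2) + C D * X 2 ^ 6 := by
    refine MvPolynomial.funext fun x => ?_
    have := h x
    simp only [map_sum, map_pow, map_add, map_sub, map_mul, eval_C, eval_X]
    rw [← this]
  have hhom : (∑ i, Q i ^ 2).IsHomogeneous (2 * 3) := by
    rw [hF]
    refine IsHomogeneous.add (IsHomogeneous.sub (IsHomogeneous.add ?_ ?_) ?_) ?_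
    · simpa using (isHomogeneous_C (Fin 3) A).mul (((hX 0).pow 4).mul ((hX 1).pow 2))
    · simpa using (isHomogeneous_C (Fin 3) B).mul (((hX 0).pow 2).mul ((hX 1).pow 4))
    · simpa using (isHomogeneous_C (Fin 3) C').mul
        ((((hX 0).pow 2).mul ((hX 1).pow 2)).mul ((hX 2).pow 2))
    · simpa using (isHomogeneous_C (Fin 3) D).mul ((hX 2).pow 6)
  have h3 : ∀ i, (Q i).IsHomogeneous 3 := fun i =>
    sos_hom Finset.univ Q 3 hhom i (Finset.mem_univ i)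
  choose a ha using fun i => HQ151.hom3_rep (h3 i)
  have hev : ∀ i (x : Fin 3 → ℝ), eval x (Q i) = a i 0 * x 0 ^ 3 + a i 1 * (x 0 ^ 2 * x 1) +
      a i 2 * (x 0 ^ 2 * x 2) + a i 3 * (x 0 * x 1 ^ 2) + a i 4 * (x 0 * x 1 * x 2) +
      a i 5 * (x 0 * x 2 ^ 2) + a i 6 * x 1 ^ 3 + a i 7 * (x 1 ^ 2 * x 2) +
      a i 8 * (x 1 * x 2 ^ 2) + a i 9 * x 2 ^ 3 := by
    intro i x
    conv_lhs => rw [ha i]
    simp only [map_add, map_mul, map_pow, eval_C, eval_X]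
  have c1 := cubic_coeffs (fun i => a i 0) (fun i => a i 2) (fun i => a i 5) (fun i => a i 9)
    ![0, 0, 0, 0, 0, 0, D] (fun z => by
      have := h ![1, 0, z]
      simp only [hev] at this
      simp at this ⊢
      rw [this])
  have c2 := cubic_coeffs (fun i => a i 6) (fun i => a i 7) (fun i => a i 8) (fun i => a i 9)
    ![0, 0, 0, 0, 0, 0, D] (fun z => by
      have := h ![0, 1, z]
      simp only [hev] at this
      simp at this ⊢
      rw [this])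
  have a0 := all_zero _ c1.1
  have a6 := all_zero _ c2.1
  have a2 : ∀ i, a i 2 = 0 := all_zero (fun i => a i 2) (by simpa [a0] using c1.2.1)
  have a7 : ∀ i, a i 7 = 0 := all_zero (fun i => a i 7) (by simpa [a6] using c2.2.1)
  have a5 : ∀ i, a i 5 = 0 := all_zero (fun i => a i 5) (by simpa [a2] using c1.2.2)
  have a8 : ∀ i, a i 8 = 0 := all_zero (fun i => a i 8) (by simpa [a7] using c2.2.2)
  have c3 := cubic_coeffs (fun i => a i 1 + a i 3) (fun i => a i 4) (fun i => 0)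
    (fun i => a i 9) ![A + B, 0, -C', 0, 0, 0, D] (fun z => by
      have := h ![1, 1, z]
      simp only [hev] at this
      simp [a0, a6, a2, a7, a5, a8] at this ⊢
      rw [← this]
      ring)
  have h4 := c3.2.1
  simp at h4
  have h5 : 0 ≤ ∑ i, a i 4 ^ 2 := Finset.sum_nonneg fun i _ => sq_nonneg _
  linarith

end Pool.Agent.W5h88
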