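import Mathlib

/-!
# The real function behind the example, its expansion at the boundary zero, and its positivity
-/

set_option autoImplicit false

open Filter Topology

namespace Pool.Agent.W5h88

/-- the Motzkin form -/
def motz (x y z : ℝ) : ℝ := x ^ 4 * y ^ 2 + x ^ 2 * y ^ 4 - 3 * (x ^ 2 * y ^ 2 * z ^ 2) + z ^ 6

theorem motz_nonneg (x y z : ℝ) : 0 ≤ motz x y z := by
  have h1 : motz x y z = x ^ 2 * y ^ 2 * (|x| - |y|) ^ 2 +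
      (|x| * |y| - z ^ 2) ^ 2 * (2 * (|x| * |y|) + z ^ 2) := by
    have hx : |x| ^ 2 = x ^ 2 := sq_abs x
    have hy : |y| ^ 2 = y ^ 2 := sq_abs y
    have e1 : |x| ^ 3 = |x| * x ^ 2 := by rw [← hx]; ring
    have e2 : |y| ^ 3 = |y| * y ^ 2 := by rw [← hy]; ring
    have e3 : (|x| - |y|) ^ 2 = x ^ 2 - 2 * (|x| * |y|) + y ^ 2 := by
      rw [← hx, ← hy]; ring
    have e4 : (|x| * |y| - z ^ 2) ^ 2 * (2 * (|x| * |y|) + z ^ 2) =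
        2 * (|x| * |y|) * (|x| ^ 2 * |y| ^ 2) - 3 * (|x| ^ 2 * |y| ^ 2) * z ^ 2 + z ^ 6 := by
      ring
    rw [e3, e4, hx, hy, motz]
    ring
  rw [h1]
  positivity

/-- `P = 4/57 p₂` -/
noncomputable def pP (p2 : ℝ) : ℝ := 4 / 57 * p2

section
variable (P p4 p6 p8 p10 p12 p14 p16 : ℝ)

/-- `∑ x⁴ Q(x²)` with `Q(t) = (t-P)(t-4P)(t-9P)` -/
def mA : ℝ := p10 - 14 * P * p8 + 49 * P ^ 2 * p6 - 36 * P ^ 3 * p4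
/-- `∑ x⁶ Q(x²)` -/
def mB : ℝ := p12 - 14 * P * p10 + 49 * P ^ 2 * p8 - 36 * P ^ 3 * p6
/-- `∑ x⁸ Q(x²)` -/
def mC : ℝ := p14 - 14 * P * p12 + 49 * P ^ 2 * p10 - 36 * P ^ 3 * p8
/-- `∑ x⁴ Q(x²)²` -/
def mH : ℝ := p16 - 28 * P * p14 + 294 * P ^ 2 * p12 - 1444 * P ^ 3 * p10 + 3409 * P ^ 4 * p8 -
  3528 * P ^ 5 * p6 + 1296 * P ^ 6 * p4

/-- `∑ x⁴ Q(x²) (x²-4P)(x²-9P)` -/
def mD1 : ℝ := mC P p8 p10 p12 p14 - 13 * P * mB P p6 p8 p10 p12 + 36 * P ^ 2 * mA P p4 p6 p8 p10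
/-- `∑ x⁴ Q(x²) (x²-P)(x²-9P)` -/
def mD2 : ℝ := mC P p8 p10 p12 p14 - 10 * P * mB P p6 p8 p10 p12 + 9 * P ^ 2 * mA P p4 p6 p8 p10
/-- `∑ x⁴ Q(x²) (x²-P)(x²-4P)` -/
def mD3 : ℝ := mC P p8 p10 p12 p14 - 5 * P * mB P p6 p8 p10 p12 + 4 * P ^ 2 * mA P p4 p6 p8 p10

end

/-- the value of the symmetric function -/
noncomputable def ff (p2 p4 p6 p8 p10 p12 p14 p16 : ℝ) : ℝ :=
  motz (mD1 (pP p2) p4 p6 p8 p10 p12 p14) (mD2 (pP p2) p4 p6 p8 p10 p12 p14)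
    (mD3 (pP p2) p4 p6 p8 p10 p12 p14) +
  p2 ^ 10 * mH (pP p2) p4 p6 p8 p10 p12 p14 p16 ^ 4

/-- `Q` -/
def qQ (P t : ℝ) : ℝ := (t - P) * (t - 4 * P) * (t - 9 * P)

/-- the term of `mD1` -/
theorem mD1_eq (P a b c e : ℝ) :
    mD1 P (a ^ 4 + b ^ 4 + c ^ 4 + e ^ 2 / 16) (a ^ 6 + b ^ 6 + c ^ 6 + e ^ 4 / 64)
      (a ^ 8 + b ^ 8 + c ^ 8 + e ^ 6 / 256) (a ^ 10 + b ^ 10 + c ^ 10 + e ^ 8 / 1024)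
      (a ^ 12 + b ^ 12 + c ^ 12 + e ^ 10 / 4096) (a ^ 14 + b ^ 14 + c ^ 14 + e ^ 12 / 16384) =
    a ^ 4 * ((a ^ 2 - P) * (a ^ 2 - 4 * P) * (a ^ 2 - 9 * P)) * ((a ^ 2 - 4 * P) * (a ^ 2 - 9 * P)) +
    b ^ 4 * ((b ^ 2 - P) * (b ^ 2 - 4 * P) * (b ^ 2 - 9 * P)) * ((b ^ 2 - 4 * P) * (b ^ 2 - 9 * P)) +
    c ^ 4 * ((c ^ 2 - P) * (c ^ 2 - 4 * P) * (c ^ 2 - 9 * P)) * ((c ^ 2 - 4 * P) * (c ^ 2 - 9 * P)) +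
    e ^ 2 / 16 * qQ P (e ^ 2 / 4) * ((e ^ 2 / 4 - 4 * P) * (e ^ 2 / 4 - 9 * P)) := by
  unfold mD1 mA mB mC qQ
  ring

theorem mD2_eq (P a b c e : ℝ) :
    mD2 P (a ^ 4 + b ^ 4 + c ^ 4 + e ^ 2 / 16) (a ^ 6 + b ^ 6 + c ^ 6 + e ^ 4 / 64)
      (a ^ 8 + b ^ 8 + c ^ 8 + e ^ 6 / 256) (a ^ 10 + b ^ 10 + c ^ 10 + e ^ 8 / 1024)
      (a ^ 12 + b ^ 12 + c ^ 12 + e ^ 10 / 4096) (a ^ 14 + b ^ 14 + c ^ 14 + e ^ 12 / 16384) =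
    a ^ 4 * ((a ^ 2 - P) * (a ^ 2 - 4 * P) * (a ^ 2 - 9 * P)) * ((a ^ 2 - P) * (a ^ 2 - 9 * P)) +
    b ^ 4 * ((b ^ 2 - P) * (b ^ 2 - 4 * P) * (b ^ 2 - 9 * P)) * ((b ^ 2 - P) * (b ^ 2 - 9 * P)) +
    c ^ 4 * ((c ^ 2 - P) * (c ^ 2 - 4 * P) * (c ^ 2 - 9 * P)) * ((c ^ 2 - P) * (c ^ 2 - 9 * P)) +
    e ^ 2 / 16 * qQ P (e ^ 2 / 4) * ((e ^ 2 / 4 - P) * (e ^ 2 / 4 - 9 * P)) := by
  unfold mD2 mA mB mC qQ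
  ring

theorem mD3_eq (P a b c e : ℝ) :
    mD3 P (a ^ 4 + b ^ 4 + c ^ 4 + e ^ 2 / 16) (a ^ 6 + b ^ 6 + c ^ 6 + e ^ 4 / 64)
      (a ^ 8 + b ^ 8 + c ^ 8 + e ^ 6 / 256) (a ^ 10 + b ^ 10 + c ^ 10 + e ^ 8 / 1024)
      (a ^ 12 + b ^ 12 + c ^ 12 + e ^ 10 / 4096) (a ^ 14 + b ^ 14 + c ^ 14 + e ^ 12 / 16384) =
    a ^ 4 * ((a ^ 2 - P) * (a ^ 2 - 4 * P) * (a ^ 2 - 9 * P)) * ((a ^ 2 - P) * (a ^ 2 - 4 * P)) +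
    b ^ 4 * ((b ^ 2 - P) * (b ^ 2 - 4 * P) * (b ^ 2 - 9 * P)) * ((b ^ 2 - P) * (b ^ 2 - 4 * P)) +
    c ^ 4 * ((c ^ 2 - P) * (c ^ 2 - 4 * P) * (c ^ 2 - 9 * P)) * ((c ^ 2 - P) * (c ^ 2 - 4 * P)) +
    e ^ 2 / 16 * qQ P (e ^ 2 / 4) * ((e ^ 2 / 4 - P) * (e ^ 2 / 4 - 4 * P)) := by
  unfold mD3 mA mB mC qQ
  ring

theorem mH_eq (P a b c e : ℝ) :
    mH P (a ^ 4 + b ^ 4 + c ^ 4 + e ^ 2 / 16) (a ^ 6 + b ^ 6 + c ^ 6 + e ^ 4 / 64)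
      (a ^ 8 + b ^ 8 + c ^ 8 + e ^ 6 / 256) (a ^ 10 + b ^ 10 + c ^ 10 + e ^ 8 / 1024)
      (a ^ 12 + b ^ 12 + c ^ 12 + e ^ 10 / 4096) (a ^ 14 + b ^ 14 + c ^ 14 + e ^ 12 / 16384)
      (a ^ 16 + b ^ 16 + c ^ 16 + e ^ 14 / 65536) =
    a ^ 4 * ((a ^ 2 - P) * (a ^ 2 - 4 * P) * (a ^ 2 - 9 * P)) ^ 2 +
    b ^ 4 * ((b ^ 2 - P) * (b ^ 2 - 4 * P) * (b ^ 2 - 9 * P)) ^ 2 +
    c ^ 4 * ((c ^ 2 - P) * (c ^ 2 - 4 * P) * (c ^ 2 - 9 * P)) ^ 2 +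
    e ^ 2 / 16 * qQ P (e ^ 2 / 4) ^ 2 := by
  unfold mH qQ
  ring

section
variable (x : Fin 3 → ℝ) (e : ℝ)

/-- first coordinate -/
noncomputable def y0 : ℝ := 1 + e * ((x 0 + 4 * (x 0 + x 1 + x 2)) / 2)
/-- second coordinate -/
noncomputable def y1 : ℝ := 2 + e * ((x 1 + 16 * (x 0 + x 1 + x 2)) / 4)
/-- third coordinate -/
noncomputable def y2 : ℝ := 3 + e * ((x 2 + 36 * (x 0 + x 1 + x 2)) / 6)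

/-- the sum of the squares of the velocities -/
noncomputable def eE : ℝ := ((x 0 + 4 * (x 0 + x 1 + x 2)) / 2) ^ 2 +
  ((x 1 + 16 * (x 0 + x 1 + x 2)) / 4) ^ 2 + ((x 2 + 36 * (x 0 + x 1 + x 2)) / 6) ^ 2

/-- `p₂` -/
noncomputable def pp2 : ℝ := y0 x e ^ 2 + y1 x e ^ 2 + y2 x e ^ 2 + 1 / 4

/-- `w0` -/
noncomputable def w0 : ℝ := x 0 + e * (((x 0 + 4 * (x 0 + x 1 + x 2)) / 2) ^ 2 - 4 / 57 * eE x)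
/-- `w1` -/
noncomputable def w1 : ℝ := x 1 + e * (((x 1 + 16 * (x 0 + x 1 + x 2)) / 4) ^ 2 - 16 / 57 * eE x)
/-- `w2` -/
noncomputable def w2 : ℝ := x 2 + e * (((x 2 + 36 * (x 0 + x 1 + x 2)) / 6) ^ 2 - 36 / 57 * eE x)

theorem h_w0 : y0 x e ^ 2 - pP (pp2 x e) = e * w0 x e := by
  unfold w0 pP pp2 y0 y1 y2 eE
  ring

theorem h_w1 : y1 x e ^ 2 - 4 * pP (pp2 x e) = e * w1 x e := by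
  unfold w1 pP pp2 y0 y1 y2 eE
  ring

theorem h_w2 : y2 x e ^ 2 - 9 * pP (pp2 x e) = e * w2 x e := by
  unfold w2 pP pp2 y0 y1 y2 eE
  ring

/-- `D1 / e` -/
noncomputable def d1 (P a b c : ℝ) : ℝ :=
  a ^ 4 * (w0 x e * (a ^ 2 - 4 * P) * (a ^ 2 - 9 * P)) * ((a ^ 2 - 4 * P) * (a ^ 2 - 9 * P)) +
  b ^ 4 * ((b ^ 2 - P) * w1 x e * (b ^ 2 - 9 * P)) * ((b ^ 2 - 4 * P) * (b ^ 2 - 9 * P)) +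
  c ^ 4 * ((c ^ 2 - P) * (c ^ 2 - 4 * P) * w2 x e) * ((c ^ 2 - 4 * P) * (c ^ 2 - 9 * P)) +
  e / 16 * qQ P (e ^ 2 / 4) * ((e ^ 2 / 4 - 4 * P) * (e ^ 2 / 4 - 9 * P))

/-- `D2 / e` -/
noncomputable def d2 (P a b c : ℝ) : ℝ :=
  a ^ 4 * (w0 x e * (a ^ 2 - 4 * P) * (a ^ 2 - 9 * P)) * ((a ^ 2 - P) * (a ^ 2 - 9 * P)) +
  b ^ 4 * ((b ^ 2 - P) * w1 x e * (b ^ 2 - 9 * P)) * ((b ^ 2 - P) * (b ^ 2 - 9 * P)) +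
  c ^ 4 * ((c ^ 2 - P) * (c ^ 2 - 4 * P) * w2 x e) * ((c ^ 2 - P) * (c ^ 2 - 9 * P)) +
  e / 16 * qQ P (e ^ 2 / 4) * ((e ^ 2 / 4 - P) * (e ^ 2 / 4 - 9 * P))

/-- `D3 / e` -/
noncomputable def d3 (P a b c : ℝ) : ℝ :=
  a ^ 4 * (w0 x e * (a ^ 2 - 4 * P) * (a ^ 2 - 9 * P)) * ((a ^ 2 - P) * (a ^ 2 - 4 * P)) +
  b ^ 4 * ((b ^ 2 - P) * w1 x e * (b ^ 2 - 9 * P)) * ((b ^ 2 - P) * (b ^ 2 - 4 * P)) +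
  c ^ 4 * ((c ^ 2 - P) * (c ^ 2 - 4 * P) * w2 x e) * ((c ^ 2 - P) * (c ^ 2 - 4 * P)) +
  e / 16 * qQ P (e ^ 2 / 4) * ((e ^ 2 / 4 - P) * (e ^ 2 / 4 - 4 * P))

/-- `H / e²` -/
noncomputable def dH (P a b c : ℝ) : ℝ :=
  a ^ 4 * (w0 x e * (a ^ 2 - 4 * P) * (a ^ 2 - 9 * P)) ^ 2 +
  b ^ 4 * ((b ^ 2 - P) * w1 x e * (b ^ 2 - 9 * P)) ^ 2 +
  c ^ 4 * ((c ^ 2 - P) * (c ^ 2 - 4 * P) * w2 x e) ^ 2 +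
  1 / 16 * qQ P (e ^ 2 / 4) ^ 2

/-- the rescaled value -/
noncomputable def phi : ℝ :=
  motz (d1 x e (pP (pp2 x e)) (y0 x e) (y1 x e) (y2 x e))
    (d2 x e (pP (pp2 x e)) (y0 x e) (y1 x e) (y2 x e))
    (d3 x e (pP (pp2 x e)) (y0 x e) (y1 x e) (y2 x e)) +
  e ^ 2 * pp2 x e ^ 10 * dH x e (pP (pp2 x e)) (y0 x e) (y1 x e) (y2 x e) ^ 4

theorem ff_eq : ff (pp2 x e) (y0 x e ^ 4 + y1 x e ^ 4 + y2 x e ^ 4 + e ^ 2 / 16)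
    (y0 x e ^ 6 + y1 x e ^ 6 + y2 x e ^ 6 + e ^ 4 / 64)
    (y0 x e ^ 8 + y1 x e ^ 8 + y2 x e ^ 8 + e ^ 6 / 256)
    (y0 x e ^ 10 + y1 x e ^ 10 + y2 x e ^ 10 + e ^ 8 / 1024)
    (y0 x e ^ 12 + y1 x e ^ 12 + y2 x e ^ 12 + e ^ 10 / 4096)
    (y0 x e ^ 14 + y1 x e ^ 14 + y2 x e ^ 14 + e ^ 12 / 16384)
    (y0 x e ^ 16 + y1 x e ^ 16 + y2 x e ^ 16 + e ^ 14 / 65536) = e ^ 6 * phi x e := by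
  rw [ff, mD1_eq, mD2_eq, mD3_eq, mH_eq, phi]
  have h0 := h_w0 x e
  have h1 := h_w1 x e
  have h2 := h_w2 x e
  generalize pP (pp2 x e) = P at *
  generalize pp2 x e = p2 at *
  generalize y0 x e = a at *
  generalize y1 x e = b at *
  generalize y2 x e = c at *
  have k1 : a ^ 4 * ((a ^ 2 - P) * (a ^ 2 - 4 * P) * (a ^ 2 - 9 * P)) *
      ((a ^ 2 - 4 * P) * (a ^ 2 - 9 * P)) +
    b ^ 4 * ((b ^ 2 - P) * (b ^ 2 - 4 * P) * (b ^ 2 - 9 * P)) * ((b ^ 2 - 4 * P) * (b ^ 2 - 9 * P)) +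
    c ^ 4 * ((c ^ 2 - P) * (c ^ 2 - 4 * P) * (c ^ 2 - 9 * P)) * ((c ^ 2 - 4 * P) * (c ^ 2 - 9 * P)) +
    e ^ 2 / 16 * qQ P (e ^ 2 / 4) * ((e ^ 2 / 4 - 4 * P) * (e ^ 2 / 4 - 9 * P)) =
    e * d1 x e P a b c := by
    unfold d1
    generalize qQ P (e ^ 2 / 4) = q
    linear_combination (a ^ 4 * ((a ^ 2 - 4 * P) * (a ^ 2 - 9 * P)) *
        ((a ^ 2 - 4 * P) * (a ^ 2 - 9 * P))) * h0 +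
      (b ^ 4 * ((b ^ 2 - P) * (b ^ 2 - 9 * P)) * ((b ^ 2 - 4 * P) * (b ^ 2 - 9 * P))) * h1 +
      (c ^ 4 * ((c ^ 2 - P) * (c ^ 2 - 4 * P)) * ((c ^ 2 - 4 * P) * (c ^ 2 - 9 * P))) * h2
  have k2 : a ^ 4 * ((a ^ 2 - P) * (a ^ 2 - 4 * P) * (a ^ 2 - 9 * P)) *
      ((a ^ 2 - P) * (a ^ 2 - 9 * P)) +
    b ^ 4 * ((b ^ 2 - P) * (b ^ 2 - 4 * P) * (b ^ 2 - 9 * P)) * ((b ^ 2 - P) * (b ^ 2 - 9 * P)) +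
    c ^ 4 * ((c ^ 2 - P) * (c ^ 2 - 4 * P) * (c ^ 2 - 9 * P)) * ((c ^ 2 - P) * (c ^ 2 - 9 * P)) +
    e ^ 2 / 16 * qQ P (e ^ 2 / 4) * ((e ^ 2 / 4 - P) * (e ^ 2 / 4 - 9 * P)) =
    e * d2 x e P a b c := by
    unfold d2
    generalize qQ P (e ^ 2 / 4) = q
    linear_combination (a ^ 4 * ((a ^ 2 - 4 * P) * (a ^ 2 - 9 * P)) *
        ((a ^ 2 - P) * (a ^ 2 - 9 * P))) * h0 +
      (b ^ 4 * ((b ^ 2 - P) * (b ^ 2 - 9 * P)) * ((b ^ 2 - P) * (b ^ 2 - 9 * P))) * h1 +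
      (c ^ 4 * ((c ^ 2 - P) * (c ^ 2 - 4 * P)) * ((c ^ 2 - P) * (c ^ 2 - 9 * P))) * h2
  have k3 : a ^ 4 * ((a ^ 2 - P) * (a ^ 2 - 4 * P) * (a ^ 2 - 9 * P)) *
      ((a ^ 2 - P) * (a ^ 2 - 4 * P)) +
    b ^ 4 * ((b ^ 2 - P) * (b ^ 2 - 4 * P) * (b ^ 2 - 9 * P)) * ((b ^ 2 - P) * (b ^ 2 - 4 * P)) +
    c ^ 4 * ((c ^ 2 - P) * (c ^ 2 - 4 * P) * (c ^ 2 - 9 * P)) * ((c ^ 2 - P) * (c ^ 2 - 4 * P)) +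
    e ^ 2 / 16 * qQ P (e ^ 2 / 4) * ((e ^ 2 / 4 - P) * (e ^ 2 / 4 - 4 * P)) =
    e * d3 x e P a b c := by
    unfold d3
    generalize qQ P (e ^ 2 / 4) = q
    linear_combination (a ^ 4 * ((a ^ 2 - 4 * P) * (a ^ 2 - 9 * P)) *
        ((a ^ 2 - P) * (a ^ 2 - 4 * P))) * h0 +
      (b ^ 4 * ((b ^ 2 - P) * (b ^ 2 - 9 * P)) * ((b ^ 2 - P) * (b ^ 2 - 4 * P))) * h1 +
      (c ^ 4 * ((c ^ 2 - P) * (c ^ 2 - 4 * P)) * ((c ^ 2 - P) * (c ^ 2 - 4 * P))) * h2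
  have k4 : a ^ 4 * ((a ^ 2 - P) * (a ^ 2 - 4 * P) * (a ^ 2 - 9 * P)) ^ 2 +
    b ^ 4 * ((b ^ 2 - P) * (b ^ 2 - 4 * P) * (b ^ 2 - 9 * P)) ^ 2 +
    c ^ 4 * ((c ^ 2 - P) * (c ^ 2 - 4 * P) * (c ^ 2 - 9 * P)) ^ 2 +
    e ^ 2 / 16 * qQ P (e ^ 2 / 4) ^ 2 = e ^ 2 * dH x e P a b c := by
    have g0 : (a ^ 2 - P) * (a ^ 2 - 4 * P) * (a ^ 2 - 9 * P) =
        e * (w0 x e * (a ^ 2 - 4 * P) * (a ^ 2 - 9 * P)) := by rw [h0]; ring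
    have g1 : (b ^ 2 - P) * (b ^ 2 - 4 * P) * (b ^ 2 - 9 * P) =
        e * ((b ^ 2 - P) * w1 x e * (b ^ 2 - 9 * P)) := by rw [h1]; ring
    have g2 : (c ^ 2 - P) * (c ^ 2 - 4 * P) * (c ^ 2 - 9 * P) =
        e * ((c ^ 2 - P) * (c ^ 2 - 4 * P) * w2 x e) := by rw [h2]; ring
    rw [g0, g1, g2, dH]
    ring
  rw [k1, k2, k3, k4]
  unfold motz
  ring

theorem phi_zero : phi x 0 = motz (576 * x 0) (3600 * x 1) (129600 * x 2) := by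
  have e0 : y0 x 0 = 1 := by unfold y0; ring
  have e1 : y1 x 0 = 2 := by unfold y1; ring
  have e2 : y2 x 0 = 3 := by unfold y2; ring
  have e3 : pP (pp2 x 0) = 1 := by unfold pP pp2; rw [e0, e1, e2]; norm_num
  have e4 : w0 x 0 = x 0 := by unfold w0; ring
  have e5 : w1 x 0 = x 1 := by unfold w1; ring
  have e6 : w2 x 0 = x 2 := by unfold w2; ring
  have f1 : d1 x 0 1 1 2 3 = 576 * x 0 := by unfold d1; rw [e4, e5, e6]; ring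
  have f2 : d2 x 0 1 1 2 3 = 3600 * x 1 := by unfold d2; rw [e4, e5, e6]; ring
  have f3 : d3 x 0 1 1 2 3 = 129600 * x 2 := by unfold d3; rw [e4, e5, e6]; ring
  rw [phi, e3, e0, e1, e2, f1, f2, f3]
  ring

theorem pp2_zero : pp2 x 0 = 57 / 4 := by
  unfold pp2 y0 y1 y2; ring

end

theorem cont_phi (x : Fin 3 → ℝ) : Continuous fun e => phi x e := by
  unfold phi motz d1 d2 d3 dH qQ pP w0 w1 w2 pp2 y0 y1 y2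
  fun_prop

theorem cont_pp2 (x : Fin 3 → ℝ) : Continuous fun e => pp2 x e := by
  unfold pp2 y0 y1 y2
  fun_prop

end Pool.Agent.W5h88
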