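import Mathlib

/-!
# Limits of sums of squares of polynomials of bounded degree in three variables
-/

set_option autoImplicit false

open MvPolynomial Filter Topology

namespace Pool.Agent.W5h88

/-- exponents -/
abbrev Ix (m : ℕ) := Fin 3 → Fin (m + 1)

/-- exponent as a finitely supported function -/
noncomputable def toF {m : ℕ} (α : Ix m) : Fin 3 →₀ ℕ :=
  Finsupp.equivFunOnFinite.symm fun l => (α l : ℕ)

theorem toF_apply {m : ℕ} (α : Ix m) (l : Fin 3) : toF α l = α l := rfl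

theorem toF_inj {m : ℕ} : Function.Injective (toF (m := m)) := by
  intro a b h
  funext l
  have := DFunLike.congr_fun h l
  rw [toF_apply, toF_apply] at this
  exact Fin.ext this

/-- monomials as functions -/
def mon {m : ℕ} (x : Fin 3 → ℝ) (α : Ix m) : ℝ := ∏ l, x l ^ (α l : ℕ)

/-- the polynomial with given coefficients -/
noncomputable def pol {m : ℕ} (a : Ix m → ℝ) : MvPolynomial (Fin 3) ℝ :=
  ∑ α, monomial (toF α) (a α)

theorem eval_pol {m : ℕ} (a : Ix m → ℝ) (x : Fin 3 → ℝ) :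
    eval x (pol a) = ∑ α, a α * mon x α := by
  rw [pol, map_sum]
  refine Finset.sum_congr rfl fun α _ => ?_
  rw [eval_monomial, Finsupp.prod_fintype _ _ (fun i => pow_zero _)]
  rfl

theorem coeff_pol {m : ℕ} (a : Ix m → ℝ) (α : Ix m) : coeff (toF α) (pol a) = a α := by
  classical
  rw [pol, coeff_sum, Finset.sum_eq_single α]
  · rw [coeff_monomial, if_pos rfl]
  · intro β _ hβ
    rw [coeff_monomial, if_neg fun h => hβ (toF_inj h)]
  · intro h
    exact absurd (Finset.mem_univ _) h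

theorem degreeOf_pol {m : ℕ} (a : Ix m → ℝ) (l : Fin 3) : degreeOf l (pol a) ≤ m := by
  classical
  rw [pol]
  refine (degreeOf_sum_le l _ _).trans (Finset.sup_le fun α _ => ?_)
  by_cases h : a α = 0
  · rw [h, monomial_zero, degreeOf_zero]
    exact Nat.zero_le _
  · rw [degreeOf_monomial_eq _ _ h, toF_apply]
    exact Nat.le_of_lt_succ (α l).2

theorem exists_pol {m : ℕ} {q : MvPolynomial (Fin 3) ℝ} (hq : q.totalDegree ≤ m) :
    ∃ a : Ix m → ℝ, q = pol a := by
  classical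
  refine ⟨fun α => coeff (toF α) q, MvPolynomial.ext _ _ fun d => ?_⟩
  by_cases hd : ∃ α : Ix m, toF α = d
  · obtain ⟨α, rfl⟩ := hd
    rw [coeff_pol]
  · have h1 : coeff d (pol fun α : Ix m => coeff (toF α) q) = 0 := by
      rw [pol, coeff_sum]
      refine Finset.sum_eq_zero fun α _ => ?_
      rw [coeff_monomial, if_neg fun h => hd ⟨α, h⟩]
    rw [h1]
    by_contra hne
    apply hd
    have h2 : ∀ l, d l < m + 1 := by
      intro l
      have h3 := le_totalDegree (mem_support_iff.mpr hne)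
      have h4 : d l ≤ d.sum fun _ e => e := by
        by_cases h5 : l ∈ d.support
        · exact Finset.single_le_sum (f := fun i => d i) (fun i _ => Nat.zero_le _) h5
        · rw [Finsupp.notMem_support_iff.mp h5]
          exact Nat.zero_le _
      omega
    refine ⟨fun l => ⟨d l, h2 l⟩, ?_⟩
    ext l
    rfl

/-- evaluation on a grid -/
noncomputable def gridMap (m : ℕ) : (Ix m → ℝ) →ₗ[ℝ] (Ix m → ℝ) where
  toFun a g := eval (fun l => ((g l : ℕ) : ℝ)) (pol a)
  map_add' a b := by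
    funext g
    simp only [eval_pol, Pi.add_apply, add_mul, Finset.sum_add_distrib]
  map_smul' c a := by
    funext g
    simp only [eval_pol, Pi.smul_apply, smul_eq_mul, RingHom.id_apply, Finset.mul_sum, mul_assoc]

theorem gridMap_ker (m : ℕ) : LinearMap.ker (gridMap m) = ⊥ := by
  classical
  rw [LinearMap.ker_eq_bot']
  intro a ha
  have h0 : pol a = 0 := by
    refine MvPolynomial.eq_zero_of_eval_zero_at_prod_finset _
      (fun _ => (Finset.range (m + 1)).image (fun n : ℕ => (n : ℝ))) ?_ ?_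
    · intro i
      rw [Finset.card_image_of_injective _ Nat.cast_injective, Finset.card_range]
      exact Nat.lt_succ_of_le (degreeOf_pol a i)
    · intro x hx
      have hx' : ∀ i, ∃ n : Fin (m + 1), x i = ((n : ℕ) : ℝ) := by
        intro i
        obtain ⟨n, hn, hnx⟩ := Finset.mem_image.mp (hx i)
        exact ⟨⟨n, Finset.mem_range.mp hn⟩, hnx.symm⟩
      choose g hg using hx'
      have : x = fun j => ((g j : ℕ) : ℝ) := funext hg
      rw [this]
      exact congrFun ha g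
  funext α
  rw [← coeff_pol a α, h0, coeff_zero]
  rfl

theorem grid_bound (m : ℕ) : ∃ K : ℝ, 0 ≤ K ∧ ∀ (a : Ix m → ℝ) (α : Ix m),
    a α ^ 2 ≤ K * ∑ g : Ix m, eval (fun l => ((g l : ℕ) : ℝ)) (pol a) ^ 2 := by
  obtain ⟨K, hK, hanti⟩ := (gridMap m).exists_antilipschitzWith (gridMap_ker m)
  refine ⟨(K : ℝ) ^ 2, by positivity, fun a α => ?_⟩
  have h1 : ‖a‖ ≤ K * ‖gridMap m a‖ := by
    have := hanti.le_mul_dist a 0
    rwa [dist_zero_right, map_zero, dist_zero_right] at this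
  have h2 : |a α| ≤ ‖a‖ := norm_le_pi_norm a α
  have h3 : ‖gridMap m a‖ ≤
      Real.sqrt (∑ g : Ix m, eval (fun l => ((g l : ℕ) : ℝ)) (pol a) ^ 2) := by
    refine (pi_norm_le_iff_of_nonneg (Real.sqrt_nonneg _)).mpr fun g => ?_
    refine Real.le_sqrt_of_sq_le ?_
    rw [Real.norm_eq_abs, sq_abs]
    exact Finset.single_le_sum
      (f := fun g : Ix m => eval (fun l => ((g l : ℕ) : ℝ)) (pol a) ^ 2)
      (fun g _ => sq_nonneg _) (Finset.mem_univ g)
  have h4 : |a α| ≤ K * Real.sqrt (∑ g : Ix m, eval (fun l => ((g l : ℕ) : ℝ)) (pol a) ^ 2) :=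
    h2.trans (h1.trans (mul_le_mul_of_nonneg_left h3 K.2))
  calc a α ^ 2 = |a α| ^ 2 := (sq_abs _).symm
    _ ≤ (K * Real.sqrt (∑ g : Ix m, eval (fun l => ((g l : ℕ) : ℝ)) (pol a) ^ 2)) ^ 2 :=
        pow_le_pow_left₀ (abs_nonneg _) h4 2
    _ = _ := by
        rw [mul_pow, Real.sq_sqrt (Finset.sum_nonneg fun g _ => sq_nonneg _)]

open scoped MatrixOrder in
theorem psd_factor {n : Type*} [Fintype n] [DecidableEq n] {M : Matrix n n ℝ}
    (hM : M.PosSemidef) : ∃ B : Matrix n n ℝ, M = B.conjTranspose * B := by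
  obtain ⟨X, hX, -, h⟩ := CFC.exists_sqrt_of_isSelfAdjoint_of_quasispectrumRestricts
    (a := M) hM.isHermitian (QuasispectrumRestricts.nnreal_of_nonneg hM.nonneg)
  refine ⟨X, ?_⟩
  have h1 : star X = X := hX.star_eq
  rw [← Matrix.star_eq_conjTranspose, h1, h]

theorem gram_eq {m : ℕ} {κ : Type*} [Fintype κ] (C : Matrix κ (Ix m) ℝ) (x : Fin 3 → ℝ) :
    ∑ i, eval x (pol (C i)) ^ 2 = ∑ α, ∑ β, mon x α * mon x β * (C.conjTranspose * C) α β := by
  have h1 : ∀ i, eval x (pol (C i)) ^ 2 =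
      ∑ α, ∑ β, (C i α * mon x α) * (C i β * mon x β) := by
    intro i
    rw [eval_pol, pow_two, Finset.sum_mul_sum]
  simp only [h1]
  rw [Finset.sum_comm]
  refine Finset.sum_congr rfl fun α _ => ?_
  rw [Finset.sum_comm]
  refine Finset.sum_congr rfl fun β _ => ?_
  rw [Matrix.mul_apply, Finset.mul_sum]
  refine Finset.sum_congr rfl fun i _ => ?_
  rw [Matrix.conjTranspose_apply, star_trivial]
  ring

/-- reduction of the number of squares -/
theorem reduce_squares {m : ℕ} {ι : Type*} [Fintype ι] (A : ι → Ix m → ℝ) :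
    ∃ B : Ix m → Ix m → ℝ, ∀ x, ∑ i, eval x (pol (A i)) ^ 2 = ∑ j, eval x (pol (B j)) ^ 2 := by
  classical
  have hpos := Matrix.posSemidef_conjTranspose_mul_self (Matrix.of A)
  obtain ⟨B, hB⟩ : ∃ B : Matrix (Ix m) (Ix m) ℝ,
      (Matrix.of A).conjTranspose * Matrix.of A = B.conjTranspose * B := psd_factor hpos
  refine ⟨B, fun x => ?_⟩
  have h1 := gram_eq (Matrix.of A) x
  have h2 := gram_eq B x
  rw [hB] at h1
  exact h1.trans h2.symm

/-- a pointwise limit of sums of squares of polynomials of bounded degree is a sum of squares -/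
theorem sos_limit {m : ℕ} (Φ : ℕ → (Fin 3 → ℝ) → ℝ) (Ψ : (Fin 3 → ℝ) → ℝ)
    (hΦ : ∀ n, ∃ (N : ℕ) (q : Fin N → MvPolynomial (Fin 3) ℝ), (∀ i, (q i).totalDegree ≤ m) ∧
      ∀ x, Φ n x = ∑ i, eval x (q i) ^ 2)
    (hlim : ∀ x, Tendsto (fun n => Φ n x) atTop (𝓝 (Ψ x))) :
    ∃ B : Ix m → Ix m → ℝ, ∀ x, Ψ x = ∑ j, eval x (pol (B j)) ^ 2 := by
  classical
  have h1 : ∀ n, ∃ B : Ix m → Ix m → ℝ, ∀ x, Φ n x = ∑ j, eval x (pol (B j)) ^ 2 := by
    intro n
    obtain ⟨N, q, hq, hx⟩ := hΦ n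
    choose A hA using fun i => exists_pol (hq i)
    obtain ⟨B, hB⟩ := reduce_squares A
    refine ⟨B, fun x => ?_⟩
    rw [hx x, ← hB x]
    exact Finset.sum_congr rfl fun i _ => by rw [hA i]
  choose B hB using h1
  obtain ⟨K, hK, hb⟩ := grid_bound m
  have h2 : ∃ C : ℝ, ∀ n, ∑ g : Ix m, Φ n (fun l => ((g l : ℕ) : ℝ)) ≤ C := by
    have ht : Tendsto (fun n => ∑ g : Ix m, Φ n (fun l => ((g l : ℕ) : ℝ))) atTop
        (𝓝 (∑ g : Ix m, Ψ (fun l => ((g l : ℕ) : ℝ)))) :=
      tendsto_finsetSum _ fun g _ => hlim _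
    obtain ⟨C, hC⟩ := ht.bddAbove_range
    exact ⟨C, fun n => hC ⟨n, rfl⟩⟩
  obtain ⟨C, hC⟩ := h2
  have hC0 : 0 ≤ C := by
    refine le_trans (Finset.sum_nonneg fun g _ => ?_) (hC 0)
    rw [hB]
    exact Finset.sum_nonneg fun j _ => sq_nonneg _
  have h3 : ∀ n j α, |B n j α| ≤ Real.sqrt (K * C) := by
    intro n j α
    refine Real.le_sqrt_of_sq_le ?_
    rw [sq_abs]
    refine (hb (B n j) α).trans (mul_le_mul_of_nonneg_left ?_ hK)
    refine le_trans (Finset.sum_le_sum fun g _ => ?_) (hC n)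
    rw [hB]
    exact Finset.single_le_sum (f := fun j => eval (fun l => ((g l : ℕ) : ℝ)) (pol (B n j)) ^ 2)
      (fun j _ => sq_nonneg _) (Finset.mem_univ j)
  have h4 : ∀ n, B n ∈ Metric.closedBall (0 : Ix m → Ix m → ℝ) (Real.sqrt (K * C)) := by
    intro n
    rw [mem_closedBall_zero_iff, pi_norm_le_iff_of_nonneg (Real.sqrt_nonneg _)]
    intro j
    rw [pi_norm_le_iff_of_nonneg (Real.sqrt_nonneg _)]
    intro α
    exact h3 n j α
  obtain ⟨L, _, φ, hφ, hL⟩ := (isCompact_closedBall _ _).tendsto_subseq h4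
  refine ⟨L, fun x => ?_⟩
  have h5 : Tendsto (fun n => ∑ j, eval x (pol (B (φ n) j)) ^ 2) atTop
      (𝓝 (∑ j, eval x (pol (L j)) ^ 2)) := by
    refine tendsto_finsetSum _ fun j _ => Tendsto.pow ?_ 2
    simp only [eval_pol]
    refine tendsto_finsetSum _ fun α _ => Tendsto.mul_const _ ?_
    have h6 := (continuous_apply α).tendsto (L j) |>.comp ((continuous_apply j).tendsto L |>.comp hL)
    exact h6
  have h6 : Tendsto (fun n => Φ (φ n) x) atTop (𝓝 (Ψ x)) := (hlim x).comp hφ.tendsto_atTop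
  refine tendsto_nhds_unique h6 ?_
  simpa only [hB] using h5

end Pool.Agent.W5h88
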